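import Pool.Agent.H958.RO.Stm

set_option autoImplicit false
set_option linter.unusedSectionVars false

namespace Pool.Agent.H729.RO.YRem

open Finset
open scoped Classical
open Pool.Agent.W830.RD (Om gle Pr Rlz)
open Pool.Agent.H958.RO

noncomputable section

lemma rev_of {α : Type} (le : α → α → Prop) (X : α → α → Prop) (m : ℕ) (J : Type) [Fintype J]
    (hm : Fintype.card J = m) (g : J → α → ℕ) (h1 : ∀ j x y, le x y → g j x ≤ g j y)
    (h2 : ∀ x y, X x y → ∃ j, g j y < g j x) : Rev le X m := by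
  subst hm
  refine ⟨fun i => g ((Fintype.equivFin J).symm i), fun i => h1 _, fun x y h => ?_⟩
  obtain ⟨j, hj⟩ := h2 x y h
  refine ⟨Fintype.equivFin J j, ?_⟩
  show g ((Fintype.equivFin J).symm (Fintype.equivFin J j)) y <
    g ((Fintype.equivFin J).symm (Fintype.equivFin J j)) x
  rw [Equiv.symm_apply_apply]
  exact hj

section abs

variable {α : Type} [Fintype α] (le le0 : α → α → Prop) (Y : Finset α)

/-- the up-closure -/
def UU (w : α) : Prop := ∃ y ∈ Y, le y w

/-- the down-closure -/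
def DD (w : α) : Prop := ∃ y ∈ Y, le w y

/-- the first functions -/
def F1 (B : ℕ) (f : α → ℕ) (w : α) : ℕ :=
  if UU le Y w then (if w ∈ Y then B else B + 1 + f w) else f w

/-- the second functions -/
def F2 (B : ℕ) (f : α → ℕ) (w : α) : ℕ :=
  if DD le Y w then (if w ∈ Y then B else f w) else B + 1 + f w

/-- the members of `Y` counted for `w` -/
def cnted (w : α) : Finset α := Y.filter fun y => ∃ u, le u w ∧ (le u y ∨ le y u)

/-- the last functions -/
def MM (lab : α → ℕ) (w : α) : ℕ := (cnted le Y w).sup fun y => lab y + 1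

variable {le le0 Y}
variable (hr : ∀ x, le x x) (ht : ∀ x y z, le x y → le y z → le x z)
  (ha : ∀ x y, le x y → le y x → x = y)
  (hA : ∀ w w', le w w' → le0 w w' ∨ ∃ y ∈ Y, le w y ∧ le y w')
  (hU : ∀ y ∈ Y, ∀ y' ∈ Y, y ≠ y' → ∀ a b, (le y a ∨ le a y) → (le y' b ∨ le b y') → ¬ le a b)

omit [Fintype α] in
include hr ht ha hU in
lemma up_not {y w w' : α} (hy : y ∈ Y) (hy' : w' ∈ Y) (h1 : le y w) (h2 : le w w') : w ∈ Y := by
  by_cases h : y = w'
  · subst h
    rw [ha w y h2 h1]
    exact hy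
  · exact absurd (ht _ _ _ h1 h2) (hU y hy w' hy' h y w' (Or.inl (hr _)) (Or.inl (hr _)))

include hr ht ha hA hU in
lemma F1_mono {B : ℕ} {f : α → ℕ} (hB : ∀ w, f w < B) (hf : ∀ x y, le0 x y → f x ≤ f y)
    (w w' : α) (h : le w w') : F1 le Y B f w ≤ F1 le Y B f w' := by
  unfold F1
  by_cases hw : UU le Y w
  · obtain ⟨y, hy, hyw⟩ := hw
    have hw1 : UU le Y w := ⟨y, hy, hyw⟩
    have hw2 : UU le Y w' := ⟨y, hy, ht _ _ _ hyw h⟩
    rw [if_pos hw1, if_pos hw2]
    by_cases hwY : w ∈ Y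
    · rw [if_pos hwY]
      split_ifs
      · exact le_refl _
      · omega
    · have hno : ∀ y'' ∈ Y, ¬ le w y'' := fun y'' hy'' h2 =>
        hwY (up_not hr ht ha hU hy hy'' hyw h2)
      have hw'Y : w' ∉ Y := fun hc => hno w' hc h
      rw [if_neg hwY, if_neg hw'Y]
      rcases hA w w' h with h3 | ⟨y'', h3, h4, -⟩
      · have := hf _ _ h3
        omega
      · exact absurd h4 (hno y'' h3)
  · rw [if_neg hw]
    by_cases hw' : UU le Y w'
    · rw [if_pos hw']
      have := hB w
      split_ifs <;> omega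
    · rw [if_neg hw']
      rcases hA w w' h with h3 | ⟨y'', h3, -, h4⟩
      · exact hf _ _ h3
      · exact absurd ⟨y'', h3, h4⟩ hw'

include hr ht ha hA hU in
lemma F2_mono {B : ℕ} {f : α → ℕ} (hB : ∀ w, f w < B) (hf : ∀ x y, le0 x y → f x ≤ f y)
    (w w' : α) (h : le w w') : F2 le Y B f w ≤ F2 le Y B f w' := by
  unfold F2
  by_cases hw' : DD le Y w'
  · obtain ⟨y, hy, hyw⟩ := hw'
    have hw1 : DD le Y w' := ⟨y, hy, hyw⟩
    have hw2 : DD le Y w := ⟨y, hy, ht _ _ _ h hyw⟩
    rw [if_pos hw1, if_pos hw2]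
    by_cases hwY : w' ∈ Y
    · rw [if_pos hwY]
      have := hB w
      split_ifs
      · exact le_refl _
      · omega
    · have hno : ∀ y'' ∈ Y, ¬ le y'' w' := fun y'' hy'' h2 =>
        hwY (up_not hr ht ha hU hy'' hy h2 hyw)
      have hw'Y : w ∉ Y := fun hc => hno w hc h
      rw [if_neg hwY, if_neg hw'Y]
      rcases hA w w' h with h3 | ⟨y'', h3, -, h4⟩
      · exact hf _ _ h3
      · exact absurd h4 (hno y'' h3)
  · rw [if_neg hw']
    by_cases hw : DD le Y w
    · rw [if_pos hw]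
      have := hB w
      split_ifs <;> omega
    · rw [if_neg hw]
      rcases hA w w' h with h3 | ⟨y'', h3, h4, -⟩
      · have := hf _ _ h3
        omega
      · exact absurd ⟨y'', h3, h4⟩ hw

include ht in
lemma MM_mono (lab : α → ℕ) (w w' : α) (h : le w w') : MM le Y lab w ≤ MM le Y lab w' := by
  unfold MM
  refine Finset.sup_mono ?_
  intro y hy
  unfold cnted at *
  rw [Finset.mem_filter] at *
  obtain ⟨h1, u, h2, h3⟩ := hy
  exact ⟨h1, u, ht _ _ _ h2 h, h3⟩

include hr hU in
lemma MM_eq (lab : α → ℕ) {w y : α} (hy : y ∈ Y) (h : le w y ∨ le y w) :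
    MM le Y lab w = lab y + 1 := by
  unfold MM
  have h1 : cnted le Y w = {y} := by
    ext y''
    unfold cnted
    rw [Finset.mem_filter, Finset.mem_singleton]
    constructor
    · rintro ⟨h2, u, h3, h4⟩
      by_contra hc
      exact hU y'' h2 y hy hc u w h4.symm h.symm h3
    · rintro rfl
      exact ⟨hy, w, hr _, h⟩
  rw [h1, Finset.sup_singleton]

include hr ht ha hA hU in
lemma abs_main (N : Finset α) (k : ℕ) (hk : 1 ≤ k) (h0 : ∀ x y, le0 x y → le x y)
    (lab : α → ℕ) (n : ℕ) (hlab : ∀ a, lab a < n) (hinj : ∀ a b, lab a = lab b → a = b)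
    (hrev : Rev le0 (fun x z => (x ∈ N ∧ x ∉ Y) ∧ (z ∈ N ∧ z ∉ Y) ∧ ¬ le0 x z ∧ ¬ le0 z x) k) :
    Rev le (fun x z => x ∈ N ∧ z ∈ N ∧ ¬ le x z ∧ ¬ le z x) (2 * k + 2) := by
  obtain ⟨f, hf1, hf2⟩ := hrev
  set B : ℕ := ∑ i, ∑ w, f i w + 1 with hBd
  have hB : ∀ i w, f i w < B := by
    intro i w
    have h1 : f i w ≤ ∑ w, f i w := Finset.single_le_sum (fun _ _ => Nat.zero_le _) (Finset.mem_univ w)
    have h2 : ∑ w, f i w ≤ ∑ i, ∑ w, f i w :=
      Finset.single_le_sum (f := fun i => ∑ w, f i w) (fun _ _ => Nat.zero_le _) (Finset.mem_univ i)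
    omega
  refine rev_of le _ _ ((Fin k ⊕ Fin k) ⊕ Fin 2) (by simp; omega)
    (fun j => Sum.elim (Sum.elim (fun i => F1 le Y B (f i)) (fun i => F2 le Y B (f i)))
      (fun i => if i = 0 then MM le Y lab else MM le Y (fun a => n - lab a)) j) ?_ ?_
  · rintro ((i | i) | i) x y h
    · exact F1_mono hr ht ha hA hU (hB i) (hf1 i) x y h
    · exact F2_mono hr ht ha hA hU (hB i) (hf1 i) x y h
    · show (if i = 0 then MM le Y lab else MM le Y (fun a => n - lab a)) x ≤
        (if i = 0 then MM le Y lab else MM le Y (fun a => n - lab a)) y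
      split_ifs
      · exact MM_mono ht _ x y h
      · exact MM_mono ht _ x y h
  · rintro x z ⟨hx, hz, hxz, hzx⟩
    by_cases hL : DD le Y x ∧ UU le Y z
    · obtain ⟨⟨y, hy, hxy⟩, ⟨y', hy', hyz⟩⟩ := hL
      have hne : y ≠ y' := by
        rintro rfl
        exact hxz (ht _ _ _ hxy hyz)
      have e1 : ∀ lab : α → ℕ, MM le Y lab x = lab y + 1 := fun lab =>
        MM_eq hr hU lab hy (Or.inl hxy)
      have e2 : ∀ lab : α → ℕ, MM le Y lab z = lab y' + 1 := fun lab =>
        MM_eq hr hU lab hy' (Or.inr hyz)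
      have hl : lab y ≠ lab y' := fun hc => hne (hinj _ _ hc)
      rcases Nat.lt_or_ge (lab y') (lab y) with h | h
      · refine ⟨Sum.inr 0, ?_⟩
        show (if (0 : Fin 2) = 0 then MM le Y lab else MM le Y (fun a => n - lab a)) z <
          (if (0 : Fin 2) = 0 then MM le Y lab else MM le Y (fun a => n - lab a)) x
        rw [if_pos rfl, e1, e2]
        omega
      · refine ⟨Sum.inr 1, ?_⟩
        show (if (1 : Fin 2) = 0 then MM le Y lab else MM le Y (fun a => n - lab a)) z <
          (if (1 : Fin 2) = 0 then MM le Y lab else MM le Y (fun a => n - lab a)) x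
        rw [if_neg (by decide), e1, e2]
        have h1 := hlab y
        have h2 := hlab y'
        show n - lab y' + 1 < n - lab y + 1
        omega
    · -- one of the other functions
      suffices hgoal : ∃ i, F1 le Y B (f i) z < F1 le Y B (f i) x ∨
          F2 le Y B (f i) z < F2 le Y B (f i) x by
        obtain ⟨i, hi | hi⟩ := hgoal
        · exact ⟨Sum.inl (Sum.inl i), hi⟩
        · exact ⟨Sum.inl (Sum.inr i), hi⟩
      by_cases hxY : x ∈ Y
      · have hxU : UU le Y x := ⟨x, hxY, hr x⟩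
        have hxD : DD le Y x := ⟨x, hxY, hr x⟩
        have hzU : ¬ UU le Y z := fun h => hL ⟨hxD, h⟩
        refine ⟨⟨0, hk⟩, Or.inl ?_⟩
        unfold F1
        rw [if_neg hzU, if_pos hxU, if_pos hxY]
        exact hB _ _
      by_cases hzY : z ∈ Y
      · have hzU : UU le Y z := ⟨z, hzY, hr z⟩
        have hzD : DD le Y z := ⟨z, hzY, hr z⟩
        have hxD : ¬ DD le Y x := fun h => hL ⟨h, hzU⟩
        refine ⟨⟨0, hk⟩, Or.inr ?_⟩
        unfold F2
        rw [if_neg hxD, if_pos hzD, if_pos hzY]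
        omega
      obtain ⟨i, hi⟩ := hf2 x z ⟨⟨hx, hxY⟩, ⟨hz, hzY⟩,
        fun h => hxz (h0 _ _ h), fun h => hzx (h0 _ _ h)⟩
      refine ⟨i, ?_⟩
      have b1 := hB i x
      have b2 := hB i z
      by_cases hxU : UU le Y x
      · left
        unfold F1
        rw [if_pos hxU, if_neg hxY]
        by_cases hzU : UU le Y z
        · rw [if_pos hzU, if_neg hzY]
          omega
        · rw [if_neg hzU]
          omega
      · by_cases hzU : UU le Y z
        · have hxD : ¬ DD le Y x := fun h => hL ⟨h, hzU⟩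
          right
          unfold F2
          rw [if_neg hxD]
          by_cases hzD : DD le Y z
          · rw [if_pos hzD, if_neg hzY]
            omega
          · rw [if_neg hzD]
            omega
        · left
          unfold F1
          rw [if_neg hxU, if_neg hzU]
          exact hi

end abs

lemma gle_le {n : ℕ} {E : Finset (Fin n × Fin n)} (hE : E ⊆ Om n) {x y : Fin n}
    (h : gle E x y) : x ≤ y := by
  unfold gle at h
  induction h with
  | refl => exact le_refl _
  | tail _ h2 ih =>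
    have h3 := hE h2
    unfold Om at h3
    exact ih.trans (Finset.mem_filter.1 h3).2.le

theorem main : S_YREM := by
  intro n E N Y k hE hYN hk hun hrev
  have hres : ∀ S : Finset (Fin n), res E S ⊆ Om n := fun S =>
    (Finset.filter_subset _ _).trans hE
  refine abs_main (le := gle (res E N)) (le0 := gle (res E (N \ Y))) (Y := Y)
    (fun x => Relation.ReflTransGen.refl) (fun x y z h1 h2 => Relation.ReflTransGen.trans h1 h2)
    (fun x y h1 h2 => le_antisymm (gle_le (hres N) h1) (gle_le (hres N) h2)) ?_ hun N k hk ?_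
    (fun a => (a : ℕ)) n (fun a => a.2) (fun a b h => Fin.ext h) ?_
  · intro w w' h
    unfold gle at h
    induction h with
    | refl => exact Or.inl Relation.ReflTransGen.refl
    | @tail b c h1 h2 ih =>
      by_cases hb : b ∈ Y
      · exact Or.inr ⟨b, hb, h1, Relation.ReflTransGen.single h2⟩
      by_cases hc : c ∈ Y
      · exact Or.inr ⟨c, hc, h1.tail h2, Relation.ReflTransGen.refl⟩
      rcases ih with h3 | ⟨y, h3, h4, h5⟩
      · left
        refine Relation.ReflTransGen.tail h3 ?_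
        unfold res at h2 ⊢
        rw [Finset.mem_filter] at h2 ⊢
        exact ⟨h2.1, Finset.mem_sdiff.2 ⟨h2.2.1, hb⟩, Finset.mem_sdiff.2 ⟨h2.2.2, hc⟩⟩
      · exact Or.inr ⟨y, h3, h4, Relation.ReflTransGen.tail h5 h2⟩
  · intro x y h
    refine Relation.ReflTransGen.mono ?_ x y h
    intro a b hab
    unfold res at hab ⊢
    rw [Finset.mem_filter] at hab ⊢
    exact ⟨hab.1, (Finset.mem_sdiff.1 hab.2.1).1, (Finset.mem_sdiff.1 hab.2.2).1⟩
  · obtain ⟨f, h1, h2⟩ := hrev
    exact ⟨f, h1, fun x y h => h2 x y ⟨Finset.mem_sdiff.2 h.1, Finset.mem_sdiff.2 h.2.1, h.2.2⟩⟩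

end

end Pool.Agent.H729.RO.YRem
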